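import Pool.Agent.P.MP_788ef7_an.Cases
import Pool.Agent.Lib.Unif.Main

set_option autoImplicit false

open scoped Manifold ContDiff
open Pool.Agent.P.MP_788ef7_an

namespace Pool.Agent.Results.MP_788ef7_an.NoAnosovProduct

theorem result (F S : Type*) [TopologicalSpace F] [T2Space F] [CompactSpace F] [ConnectedSpace F]
    [ChartedSpace (EuclideanSpace ℝ (Fin 2)) F] [IsManifold (𝓡 2) ∞ F]
    [TopologicalSpace S] [T2Space S] [CompactSpace S] [ConnectedSpace S]
    [ChartedSpace (EuclideanSpace ℝ (Fin 2)) S] [IsManifold (𝓡 2) ∞ S]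
    (hF : eulerChar F ≤ -2) : ¬ ProdSupportsAnosov (𝓡 2) F S := by
  rintro ⟨_, _, f, h⟩
  obtain ⟨Pm, ν, C, lam, hd⟩ := h.aData
  obtain ⟨x₀⟩ : Nonempty F := inferInstance
  obtain ⟨y₀⟩ : Nonempty S := inferInstance
  have := ChartedSpace.locallyPathConnectedSpace (EuclideanSpace ℝ (Fin 2)) F
  have : PathConnectedSpace F := pathConnectedSpace_iff_connectedSpace.2 inferInstance
  rcases Pool.Agent.Lib.Unif.unif F x₀ with hF' | ⟨-, -, hG⟩
  · rcases Pool.Agent.Lib.Unif.unif S y₀ with hS | ⟨hS | hS, -⟩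
    · exact case_hh hF' hS hd
    · exact case_t hF' hS hd
    · exact case_s hF' hS hd
  · have h0 : betti F 0 = 1 := Pool.Agent.Lib.Unif.finrank_h0 F
    have h1 : betti F 1 ≤ 2 := Pool.Agent.Lib.Unif.finrank_h1 F hG
    unfold eulerChar at hF
    omega

end Pool.Agent.Results.MP_788ef7_an.NoAnosovProduct
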